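import Mathlib
import Pool.Agent.H523R2.Sun.Cert

/-!
# Sunflower-free families of size `1.5687^n`

`M n` is the largest size of a family of subsets of an `n`-set without three distinct members
forming a sunflower. We show `M n ≥ 1.5687^n` for all large `n`, so `c* ≥ 1.5687`.
-/

namespace Pool.Agent.Results.MP_81defa_co.LowerBound

open Filter

/-- No three distinct members of `F` form a sunflower (all pairwise intersections equal). -/
def SunflowerFree {n : ℕ} (F : Finset (Finset (Fin n))) : Prop :=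
  ∀ A ∈ F, ∀ B ∈ F, ∀ C ∈ F, A ≠ B → A ≠ C → B ≠ C → ¬ (A ∩ B = A ∩ C ∧ A ∩ C = B ∩ C)

/-- `M(n)`: the largest size of a sunflower-free family of subsets of an `n`-set. -/
noncomputable def M (n : ℕ) : ℕ :=
  sSup {t | ∃ F : Finset (Finset (Fin n)), SunflowerFree F ∧ F.card = t}

lemma num : Pool.Agent.H523R2.Sun.Cert 168070 5734328436820073070 109115 156872 100000 = true := by
  decide +kernel

theorem result :
    (∃ n0 : ℕ, ∀ n : ℕ, n0 ≤ n → (1.5687 : ℝ) ^ n ≤ (M n : ℝ)) ∧
    (1.5687 : ℝ) ≤ limsup (fun n : ℕ => (M n : ℝ) ^ (1 / (n : ℝ))) atTop :=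
  Pool.Agent.H523R2.Sun.limsup_ge 1.5687 (by norm_num)
    (Pool.Agent.H523R2.Sun.finish Pool.Agent.H523R2.Sun.h6 (by decide) 156872 100000 (by decide)
      1.5687 (by norm_num) (by norm_num) num)

end Pool.Agent.Results.MP_81defa_co.LowerBound
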